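import Mathlib
import Pool.Agent.H.MP_27f8b5_an.A

namespace Pool.Agent.Results.MP_27f8b5_an.Counter

open Filter Topology MonoidAlgebra Pool.Agent.H.MP_27f8b5_an

/-- the discrete group S₃ × ℤ -/
abbrev Γ := Equiv.Perm (Fin 3) × Multiplicative ℤ

/-- square summable functions -/
noncomputable abbrev L2 : Type := lp (fun _ : Γ => ℂ) 2

/-- T is left convolution by μ -/
def Conv (μ : Γ →₀ ℂ) (T : L2 → L2) : Prop := ∀ f x, T f x = μ.sum fun y c => c * f (y⁻¹ * x)

/-- mean ergodic operator -/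
def ME {X : Type} [NormedAddCommGroup X] [NormedSpace ℂ X] (T : X →L[ℂ] X) : Prop :=
  ∀ f, ∃ g, Tendsto (fun n : ℕ => (n : ℂ)⁻¹ • ∑ k ∈ Finset.range n, (T ^ k) f) atTop (𝓝 g)

/-- power bounded operator -/
def PB {X : Type} [NormedAddCommGroup X] [NormedSpace ℂ X] (T : X →L[ℂ] X) : Prop :=
  ∃ C, ∀ n : ℕ, ‖T ^ n‖ ≤ C

noncomputable def R : E →L[ℂ] E := (1 / 2 : ℂ) • (1 + π u)

theorem Rsq (f : E) : ‖R f‖ ^ 2 = ‖f‖ ^ 2 - ‖f - π u f‖ ^ 2 / 4 := by
  have := parallelogram_law_with_norm ℂ f (π u f)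
  rw [π_norm] at this
  simp only [R, _root_.smul_apply, add_apply, one_apply_eq_self, norm_smul]
  norm_num
  nlinarith

theorem Rle (n : ℕ) (f : E) : ‖(R ^ n) f‖ ≤ ‖f‖ := by
  induction n with
  | zero => simp
  | succ n ih =>
    rw [pow_succ', mul_apply_eq_comp]
    refine le_trans (abs_le_of_sq_le_sq' ?_ (norm_nonneg _)).2 ih
    rw [Rsq]
    linarith [sq_nonneg ‖(R ^ n) f - π u ((R ^ n) f)‖]

theorem R0 (f : E) : Tendsto (fun n => ‖(R ^ n) f‖) atTop (𝓝 0) := by
  have c : Commute R (1 - π u) :=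
    (((Commute.one_left _).add_left ((Commute.one_right _).sub_right (Commute.refl _)))).smul_left _
  have h1 : ∀ f : E, Tendsto (fun n => ‖(R ^ n) ((1 - π u) f)‖) atTop (𝓝 0) := fun f => by
    have s : Summable fun n => ‖(R ^ n) ((1 - π u) f)‖ ^ 2 := by
      refine summable_of_sum_range_le (c := 4 * ‖f‖ ^ 2) (fun _ => sq_nonneg _) fun n => ?_
      have : ∑ i ∈ Finset.range n, ‖(R ^ i) ((1 - π u) f)‖ ^ 2 =
          4 * ‖f‖ ^ 2 - 4 * ‖(R ^ n) f‖ ^ 2 := by
        induction n with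
        | zero => simp
        | succ n ih =>
          rw [Finset.sum_range_succ, ih, pow_succ' R, mul_apply_eq_comp, Rsq, ← mul_apply_eq_comp,
            (c.pow_left n).eq, mul_apply_eq_comp, sub_apply, one_apply_eq_self]
          ring
      linarith [sq_nonneg ‖(R ^ n) f‖]
    simpa using s.tendsto_atTop_zero.sqrt
  have h2 : Dense ((LinearMap.range ((1 - π u : E →L[ℂ] E) : E →ₗ[ℂ] E) : Submodule ℂ E) : Set E) := by
    rw [Submodule.dense_iff_topologicalClosure_eq_top, Submodule.topologicalClosure_eq_top_iff,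
      Submodule.eq_bot_iff]
    intro y hy
    have h := hy _ ⟨y, rfl⟩
    have h4 : π u y = y := by
      have h3 : inner ℂ (y - π u y) y = 0 := h
      have h5 := norm_sub_sq (𝕜 := ℂ) (π u y) y
      rw [inner_sub_left, sub_eq_zero] at h3
      rw [← h3, inner_self_eq_norm_sq, π_norm] at h5
      rw [← sub_eq_zero, ← norm_eq_zero, ← sq_eq_zero_iff, h5]
      ring
    ext x
    have h5 : ∀ k : ℕ, y (x * u ^ k) = y x := fun k => by
      induction k with
      | zero => simp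
      | succ k ih =>
        have e : u⁻¹ * (x * u ^ (k + 1)) = x * u ^ k := by
          ext <;> simp only [upow] <;> simp [u]
          ring
        rw [← ih, ← e, ← π_apply, h4]
    have := ((lp.memℓp y).summable (by norm_num)).tendsto_cofinite_zero.comp (inj x)
    simpa [Function.comp_def, h5] using this
  rw [Metric.tendsto_nhds]
  intro ε hε
  obtain ⟨_, ⟨g, rfl⟩, hg⟩ := h2.exists_dist_lt f (half_pos hε)
  filter_upwards [(h1 g).eventually (gt_mem_nhds (half_pos hε))] with n hn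
  rw [dist_zero_right, norm_norm, ← sub_add_cancel f ((1 - π u) g), map_add]
  rw [dist_eq_norm] at hg
  have := (Rle n (f - (1 - π u) g)).trans_lt hg
  exact (norm_add_le _ _).trans_lt (by linarith)

theorem cb (m : ℕ) : (16 : ℝ) ^ (m + 1) ≤ 4 * (m + 1) * (Nat.centralBinom (m + 1)) ^ 2 := by
  induction m with
  | zero => norm_num [Nat.centralBinom]
  | succ m ih =>
    have h : ((m + 1 + 1 : ℕ) : ℝ) * Nat.centralBinom (m + 1 + 1) =
        2 * (2 * (m + 1 : ℕ) + 1) * Nat.centralBinom (m + 1) := by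
      exact_mod_cast Nat.succ_mul_centralBinom_succ (m + 1)
    push_cast at h ⊢
    have m0 : (0 : ℝ) ≤ m := Nat.cast_nonneg m
    refine le_of_mul_le_mul_left ?_ (by positivity : (0 : ℝ) < m + 1 + 1)
    calc _ ≤ (m + 1 + 1) * (16 * (4 * (m + 1) * (Nat.centralBinom (m + 1) : ℝ) ^ 2)) := by
          rw [pow_succ' 16]; gcongr
      _ ≤ 4 * (2 * (2 * (m + 1) + 1) * Nat.centralBinom (m + 1)) ^ 2 := by
          nlinarith [sq_nonneg (Nat.centralBinom (m + 1) : ℝ)]
      _ = _ := by rw [← h]; ring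

theorem result : ∃ (μ : Γ →₀ ℂ) (T : L2 →L[ℂ] L2), Conv μ T ∧ ME T ∧ ¬ PB T := by
  have hR : Λ ((1 / 2 : ℂ) • (1 + single u 1)) = R := by
    rw [map_smul, map_add, map_one, Λ_single, R]
  have hT : Λ (-((1 / 2 : ℂ) • (1 + single u 1)) + β) = -R + Λ β := by rw [map_add, map_neg, hR]
  have c : Commute R (Λ β) := by
    rw [← hR]
    exact (((Commute.one_left _).add_left uβ).smul_left _).map Λ
  have b : Λ β * Λ β = 0 := by rw [← map_mul, β2, map_zero]
  have p := pw c.neg_left b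
  have n1 : ∀ n (f : E), ‖((-R) ^ n) f‖ = ‖(R ^ n) f‖ := fun n f => by
    rcases n.even_or_odd with h | h <;> simp [h.neg_pow]
  refine ⟨_, _, Λ_apply (-((1 / 2 : ℂ) • (1 + single u 1)) + β), fun f => ⟨0, ?_⟩, ?_⟩
  · rw [hT]
    have u1 : IsUnit (1 + R) := by
      have : 1 + R = (3 / 2 : ℂ) • (1 - (-1 / 3 : ℂ) • π u) := by
        rw [R]; module
      rw [this, Algebra.smul_def]
      refine ((IsUnit.mk0 _ (by norm_num)).map _).mul (isUnit_one_sub_of_norm_lt_one ?_)
      refine (ContinuousLinearMap.opNorm_le_bound _ (M := 1 / 3) (by norm_num)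
        fun f => ?_).trans_lt (by norm_num)
      simp [norm_smul, π_norm]
    have u2 : IsUnit (1 - (-R + Λ β)) := by
      rw [show 1 - (-R + Λ β) = 1 + R + -Λ β by abel]
      exact IsNilpotent.isUnit_add_left_of_commute (IsNilpotent.neg ⟨2, by rw [sq, b]⟩) u1
        ((Commute.one_right _).add_right c.symm).neg_left
    obtain ⟨g, rfl⟩ : ∃ g, (1 - (-R + Λ β)) g = f :=
      ⟨(u2.unit⁻¹ : Units _).1 f, by rw [← mul_apply_eq_comp, u2.mul_val_inv, one_apply_eq_self]⟩
    rw [← tendsto_add_atTop_iff_nat 1]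
    have t1 := (tendsto_one_div_add_atTop_nhds_zero_nat (𝕜 := ℝ)).mul_const (2 * ‖g‖)
    have t2 := t1.add (R0 (Λ β g))
    rw [zero_mul, zero_add] at t2
    refine squeeze_zero_norm (fun n => ?_) t2
    simp only [← mul_apply_eq_comp]
    rw [← sum_apply, ← Finset.sum_mul, geom_sum_mul_neg, p, norm_smul, norm_inv, Complex.norm_natCast,
      sub_apply, add_apply, one_apply_eq_self, ← sub_sub, _root_.smul_apply, mul_apply_eq_comp,
      mul_apply_eq_comp]
    have h1 := norm_sub_le (g - ((-R) ^ (n + 1)) g) ((n + 1) • ((-R) ^ n) (Λ β g))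
    have h2 := norm_sub_le g (((-R) ^ (n + 1)) g)
    have h3 := Rle (n + 1) g
    rw [RCLike.norm_nsmul ℂ, n1, nsmul_eq_mul] at h1
    rw [n1] at h2
    rw [inv_mul_le_iff₀ (by positivity)]
    rw [Nat.cast_succ] at h1 ⊢
    rw [mul_add, ← mul_assoc, mul_one_div_cancel (by positivity)]
    linarith
  · rw [hT]
    rintro ⟨C, hC⟩
    obtain ⟨m, hm⟩ := exists_nat_gt ((C + 1) ^ 2)
    have h1 := (((-R + Λ β) ^ (2 * (m + 1) + 1)).le_opNorm (lp.single 2 1 1)).trans
      (mul_le_mul_of_nonneg_right (hC _) (norm_nonneg _))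
    have h0 : ‖(lp.single 2 1 1 : E)‖ = 1 := by rw [lp.norm_single (by norm_num), norm_one]
    rw [p, add_apply, _root_.smul_apply, mul_apply_eq_comp, h0, add_comm] at h1
    rw [← sub_neg_eq_add] at h1
    have h2 := (norm_sub_norm_le _ _).trans h1
    have h3 := Rle (2 * (m + 1) + 1) (lp.single 2 1 1)
    rw [norm_neg, RCLike.norm_nsmul ℂ, n1, n1, nsmul_eq_mul] at h2
    have h4 := lp.norm_apply_le_norm two_ne_zero
      ((R ^ (2 * (m + 1))) (Λ β (lp.single 2 1 1))) (t * u ^ (m + 1))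
    have h5 : ((R ^ (2 * (m + 1))) (Λ β (lp.single 2 1 1))) (t * u ^ (m + 1)) =
        (1 / 2) ^ (2 * (m + 1)) * Nat.centralBinom (m + 1) := by
      rw [← mul_apply_eq_comp, (c.pow_left _).eq, ← hR, ← map_pow, ← map_mul, smul_pow, add_comm 1,
        (Commute.one_right _).add_pow', mul_smul_comm, Finset.mul_sum, map_smul, map_sum,
        _root_.smul_apply, sum_apply, lp.coeFn_smul, lp.coeFn_sum, Pi.smul_apply, Finset.sum_apply,
        Finset.Nat.sum_antidiagonal_eq_sum_range_succ_mk]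
      simp only [one_pow, mul_one, mul_smul_comm, ← Nat.cast_smul_eq_nsmul ℂ, map_smul, _root_.smul_apply,
        lp.coeFn_smul, Pi.smul_apply, ev, smul_eq_mul, mul_ite, mul_zero, Finset.sum_ite_eq',
        Finset.mem_range, Nat.centralBinom]
      rw [if_pos (by omega)]
    rw [h5] at h4
    simp only [norm_mul, norm_pow, norm_div, norm_one, Complex.norm_ofNat, Complex.norm_natCast]
      at h4
    have h6 := cb m
    have h7 : (16 : ℝ) ^ (m + 1) * ((1 / 2) ^ (2 * (m + 1))) ^ 2 = 1 := by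
      rw [← pow_mul, mul_comm 2, mul_assoc, mul_comm (m + 1), pow_mul, ← mul_pow]; norm_num
    have h8 := mul_le_mul_of_nonneg_right h6 (sq_nonneg ((1 / 2 : ℝ) ^ (2 * (m + 1))))
    have q0 : (0 : ℝ) ≤ (1 / 2) ^ (2 * (m + 1)) * Nat.centralBinom (m + 1) := by positivity
    rw [h7, mul_assoc, ← mul_pow, mul_comm (_ : ℝ) ((1 / 2) ^ _)] at h8
    generalize (1 / 2 : ℝ) ^ (2 * (m + 1)) * Nat.centralBinom (m + 1) = q at h4 h8 q0
    generalize ‖(R ^ (2 * (m + 1))) (Λ β (lp.single 2 1 1))‖ = A at h2 h4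
    generalize ‖(R ^ (2 * (m + 1) + 1)) (lp.single 2 1 1)‖ = B at h2 h3
    push_cast at h2
    have m0 : (0 : ℝ) ≤ m := Nat.cast_nonneg m
    have h9 : 2 * (m + 1) * q ≤ C + 1 := by
      linarith [mul_le_mul_of_nonneg_left h4 (by positivity : (0 : ℝ) ≤ 2 * (m + 1) + 1)]
    nlinarith [pow_le_pow_left₀ (by positivity) h9 2]

end Pool.Agent.Results.MP_27f8b5_an.Counter
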